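import Pool.Agent.Run7.h640.FP.Fin

/-!
# The 1/3-2/3 conjecture for posets with at most `n` elements gives `1/3 - C n ^ (-c)` for all

`balance P` is the balance constant `δ(P)` of the problem.  There are absolute constants `C, c > 0`
such that for every finite poset `P` which is not a chain and every `n ≥ 2` there is a poset `Q` with at
most `n` elements, not a chain, with `balance Q ≤ balance P + C n ^ (-c)`.  So if the conjecture holds
for all posets with at most `n` elements, then every finite poset which is not a chain has balance
constant at least `1/3 - C n ^ (-c)`; and a counterexample with balance constant `1/3 - ε` gives one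
with at most `O(ε ^ (-1/c))` elements.

Proof.  If the balance constant of `P` is less than `2/5` then, by a starting result, every element of
`P` is incomparable to at most `K` others, with an absolute constant `K`.  Random linear extensions of
such posets forget the far past exponentially fast, so the balance constant is determined up to
`4 ρ ^ q` by windows of length `O(q)`, and the part between two equal windows can be cut out.
-/

set_option autoImplicit false

namespace Pool.Agent.Results.MP_bd7e44_co.SmallPosetsSuffice

open Pool.Agent.H13R3.WB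

theorem result :
    ∃ C c : ℝ, 0 < C ∧ 0 < c ∧
      (∀ (P : Type) [Fintype P] [PartialOrder P], (∃ x y : P, ¬ x ≤ y ∧ ¬ y ≤ x) →
        ∀ n : ℕ, 2 ≤ n → ∃ (Q : Type) (_ : Fintype Q) (_ : PartialOrder Q),
          Fintype.card Q ≤ n ∧ (∃ x y : Q, ¬ x ≤ y ∧ ¬ y ≤ x) ∧
            balance Q ≤ balance P + C * (n : ℝ) ^ (-c)) ∧
      ∀ n : ℕ, 2 ≤ n →
        (∀ (Q : Type) [Fintype Q] [PartialOrder Q], Fintype.card Q ≤ n →
          (∃ x y : Q, ¬ x ≤ y ∧ ¬ y ≤ x) → 1 / 3 ≤ balance Q) →
        ∀ (P : Type) [Fintype P] [PartialOrder P], (∃ x y : P, ¬ x ≤ y ∧ ¬ y ≤ x) →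
          1 / 3 - C * (n : ℝ) ^ (-c) ≤ balance P := by
  obtain ⟨C, c, hC, hc, h⟩ := Run7.h640.FP.nonchain_final
  refine ⟨C, c, hC, hc, h, ?_⟩
  intro n hn hQ P _ _ hP
  obtain ⟨Q, i1, i2, h1, h2, h3⟩ := h P hP n hn
  have := hQ Q h1 h2
  linarith

end Pool.Agent.Results.MP_bd7e44_co.SmallPosetsSuffice
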